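import Pool.Agent.W275.US.Stm

set_option autoImplicit false

namespace Pool.Agent.W216.US.Cov

open MeasureTheory Set Pool.Agent.W275.US
open scoped ENNReal InnerProductSpace

variable {b d : ℕ}

lemma inner_inj (i : Fin b) (v : E d) (x : X b d) : ⟪(inj i v : X b d), x⟫_ℝ = ⟪v, blk i x⟫_ℝ := by
  simp only [PiLp.inner_apply, inj, blk]
  rw [Fintype.sum_prod_type, Finset.sum_eq_single i]
  · simp
  · intro j _ hj
    simp [hj]
  · intro h; exact absurd (Finset.mem_univ i) h

lemma dir_meas (p : Seminorm ℝ (E d)) : Measurable (dir p) := by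
  unfold dir
  exact ((p_cont p).measurable.inv).smul measurable_id

lemma ae_uu {p : Fin b → Seminorm ℝ (E d)} (hp : ∀ i, Def (p i)) (hd : 1 ≤ d) :
    ∀ᵐ u ∂(uu p), ∀ i, u i ≠ 0 := by
  have : ∀ i, IsProbabilityMeasure (unif (p i)) := fun i => unif_prob (hp i)
  rw [ae_all_iff]
  intro i
  have h := (measurePreserving_eval (fun i => unif (p i)) i).quasiMeasurePreserving.ae
    (unif_ne (p := p i) hd)
  exact h

theorem main : S_mp → S_cov := by
  intro hmp b d hd p hp ρ hρm hρ0 _ _ hrad i v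
  have : ∀ i, IsProbabilityMeasure (unif (p i)) := fun i => unif_prob (hp i)
  have : IsProbabilityMeasure (uu p) := by unfold uu; infer_instance
  have hT := hmp b d hd p hp
  have hφm : Measurable fun x : X b d => ⟪(inj i v : X b d), x⟫_ℝ ^ 2 * ρ x := by
    have : Continuous fun x : X b d => ⟪(inj i v : X b d), x⟫_ℝ ^ 2 := by fun_prop
    exact this.measurable.mul hρm
  have e1 : ∫ x, ⟪(inj i v : X b d), x⟫_ℝ ^ 2 * ρ x =
      ∫ q : X b d × (Fin b → E d), ⟪(inj i v : X b d), turn p q.2 q.1⟫_ℝ ^ 2 *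
        ρ (turn p q.2 q.1) ∂((volume : Measure (X b d)).prod (uu p)) := by
    conv_lhs => rw [← hT.map_eq]
    rw [integral_map hT.measurable.aemeasurable hφm.aestronglyMeasurable]
  have hae : ∀ᵐ q : X b d × (Fin b → E d) ∂((volume : Measure (X b d)).prod (uu p)),
      ∀ i, q.2 i ≠ 0 :=
    Measure.quasiMeasurePreserving_snd.ae (ae_uu hp hd)
  have e2 : ∫ q : X b d × (Fin b → E d), ⟪(inj i v : X b d), turn p q.2 q.1⟫_ℝ ^ 2 *
        ρ (turn p q.2 q.1) ∂((volume : Measure (X b d)).prod (uu p)) =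
      ∫ q : X b d × (Fin b → E d), (p i (blk i q.1) ^ 2 * ρ q.1) *
        ⟪v, dir (p i) (q.2 i)⟫_ℝ ^ 2 ∂((volume : Measure (X b d)).prod (uu p)) := by
    apply integral_congr_ae
    filter_upwards [hae] with q hq
    have h1 : ρ (turn p q.2 q.1) = ρ q.1 := by
      apply hrad
      intro j
      unfold turn
      rw [blk_cat, map_smul_eq_mul, p_dir (hp j) (hq j), mul_one, Real.norm_eq_abs,
        abs_of_nonneg (apply_nonneg _ _)]
    have h2 : ⟪(inj i v : X b d), turn p q.2 q.1⟫_ℝ =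
        p i (blk i q.1) * ⟪v, dir (p i) (q.2 i)⟫_ℝ := by
      rw [inner_inj]
      unfold turn
      rw [blk_cat, inner_smul_right]
    rw [h1, h2]; ring
  have e3 : ∫ q : X b d × (Fin b → E d), (p i (blk i q.1) ^ 2 * ρ q.1) *
        ⟪v, dir (p i) (q.2 i)⟫_ℝ ^ 2 ∂((volume : Measure (X b d)).prod (uu p)) =
      (∫ x, p i (blk i x) ^ 2 * ρ x) * ∫ u, ⟪v, dir (p i) (u i)⟫_ℝ ^ 2 ∂(uu p) :=
    integral_prod_mul (fun x => p i (blk i x) ^ 2 * ρ x)
      (fun u : Fin b → E d => ⟪v, dir (p i) (u i)⟫_ℝ ^ 2)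
  have hdm : Measurable fun w : E d => ⟪v, dir (p i) w⟫_ℝ ^ 2 := by
    have : Measurable fun w : E d => ⟪v, w⟫_ℝ ^ 2 := by
      have : Continuous fun w : E d => ⟪v, w⟫_ℝ ^ 2 := by fun_prop
      exact this.measurable
    exact this.comp (dir_meas (p i))
  have e4 : ∫ u, ⟪v, dir (p i) (u i)⟫_ℝ ^ 2 ∂(uu p) =
      ∫ w, ⟪v, dir (p i) w⟫_ℝ ^ 2 ∂(unif (p i)) := by
    have h := measurePreserving_eval (fun i => unif (p i)) i
    conv_rhs => rw [← h.map_eq]
    rw [integral_map h.measurable.aemeasurable hdm.aestronglyMeasurable]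
    rfl
  obtain ⟨C, hC0, hC⟩ := norm_le (hp i)
  have hdirC : ∀ w : E d, ‖dir (p i) w‖ ≤ C := by
    intro w
    by_cases hw : w = 0
    · subst hw; simp [dir, hC0.le]
    · have := hC (dir (p i) w)
      rwa [p_dir (hp i) hw, mul_one] at this
  have e5 : ∫ w, ⟪v, w⟫_ℝ ^ 2 ∂(unif (p i)) ≤ ∫ w, ⟪v, dir (p i) w⟫_ℝ ^ 2 ∂(unif (p i)) := by
    apply integral_mono_ae
    · refine Integrable.of_bound ?_ ((‖v‖ * C) ^ 2) ?_
      · have : Continuous fun w : E d => ⟪v, w⟫_ℝ ^ 2 := by fun_prop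
        exact this.measurable.aestronglyMeasurable
      · filter_upwards [unif_ball (p := p i)] with w hw
        rw [Real.norm_eq_abs, abs_of_nonneg (sq_nonneg _), ← sq_abs]
        apply pow_le_pow_left₀ (abs_nonneg _)
        refine (abs_real_inner_le_norm _ _).trans ?_
        apply mul_le_mul_of_nonneg_left _ (norm_nonneg _)
        have := hC w
        nlinarith
    · refine Integrable.of_bound hdm.aestronglyMeasurable ((‖v‖ * C) ^ 2) ?_
      filter_upwards with w
      rw [Real.norm_eq_abs, abs_of_nonneg (sq_nonneg _), ← sq_abs]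
      apply pow_le_pow_left₀ (abs_nonneg _)
      refine (abs_real_inner_le_norm _ _).trans ?_
      exact mul_le_mul_of_nonneg_left (hdirC w) (norm_nonneg _)
    · filter_upwards [unif_ball (p := p i), unif_ne (p := p i) hd] with w hw1 hw2
      have hpos : 0 < p i w := by
        rcases (apply_nonneg (p i) w).lt_or_eq with h | h
        · exact h
        · exact absurd (hp i w h.symm) hw2
      unfold dir
      rw [inner_smul_right, mul_pow]
      have h1 : 1 ≤ (p i w)⁻¹ ^ 2 := by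
        have : 1 ≤ (p i w)⁻¹ := (one_le_inv₀ hpos).2 hw1
        exact one_le_pow₀ this
      nlinarith [sq_nonneg (⟪v, w⟫_ℝ)]
  rw [e1, e2, e3, e4, mul_comm]
  apply mul_le_mul_of_nonneg_left e5
  exact integral_nonneg fun x => mul_nonneg (sq_nonneg _) (hρ0 x)

end Pool.Agent.W216.US.Cov
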