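import Pool.Agent.W275.US.Stm

set_option autoImplicit false

namespace Pool.Agent.W216.US.CovZ

open MeasureTheory Set Pool.Agent.W275.US
open scoped ENNReal InnerProductSpace

variable {b d : ℕ}

/-- index set of the coordinates -/
abbrev Q (b d : ℕ) : Type := Fin b × (Fin d × Fin 1)

lemma zblk_sq (i : Fin b) (z : Z b d) : ‖zblk i z‖ ^ 2 = ∑ k, z (i, k) ^ 2 := by
  rw [EuclideanSpace.norm_sq_eq]
  simp [zblk]

lemma zblk_eq {i : Fin b} {z z' : Z b d} (h : ∑ k, z (i, k) ^ 2 = ∑ k, z' (i, k) ^ 2) :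
    ‖zblk i z‖ = ‖zblk i z'‖ := by
  rw [← zblk_sq, ← zblk_sq] at h
  exact (pow_left_inj₀ (norm_nonneg _) (norm_nonneg _) two_ne_zero).1 h

/-- reflection of the coordinate `q` -/
noncomputable def rfl' (q : Q b d) : Z b d ≃ₗᵢ[ℝ] Z b d :=
  LinearIsometryEquiv.piLpCongrRight 2
    (fun q' => if q' = q then LinearIsometryEquiv.neg ℝ else LinearIsometryEquiv.refl ℝ ℝ)

lemma rfl'_apply (q q' : Q b d) (z : Z b d) :
    rfl' q z q' = if q' = q then -z q' else z q' := by
  unfold rfl'
  simp only [LinearIsometryEquiv.piLpCongrRight_apply]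
  split_ifs <;> rfl

/-- transposition of two coordinates -/
noncomputable def swp (q q' : Q b d) : Z b d ≃ₗᵢ[ℝ] Z b d :=
  LinearIsometryEquiv.piLpCongrLeft 2 ℝ ℝ (Equiv.swap q q')

lemma swp_apply (q q' r : Q b d) (z : Z b d) : swp q q' z r = z (Equiv.swap q q' r) := by
  unfold swp
  simp [LinearIsometryEquiv.piLpCongrLeft_apply, Equiv.piCongrLeft'_apply]

lemma int_comp (e : Z b d ≃ₗᵢ[ℝ] Z b d) (f : Z b d → ℝ) : ∫ z, f (e z) = ∫ z, f z :=
  e.measurePreserving.integral_comp e.toHomeomorph.measurableEmbedding f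

theorem main : S_covZ := by
  intro b d hd ρ hρm hρ0 hρi hR hrad T hT θ
  obtain ⟨R, hR⟩ := hR
  -- integrability
  have hint : ∀ q q' : Q b d, Integrable fun z : Z b d => z q * z q' * ρ z := by
    intro q q'
    refine (hρi.const_mul (R ^ 2)).mono ?_ ?_
    · have h1 : Continuous fun z : Z b d => z q * z q' := by fun_prop
      exact (h1.measurable.mul hρm).aestronglyMeasurable
    · filter_upwards with z
      rw [norm_mul, norm_mul (R ^ 2), Real.norm_of_nonneg (hρ0 z),
        Real.norm_of_nonneg (sq_nonneg R)]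
      by_cases hz : R < ‖z‖
      · rw [hR z hz]; simp
      · push Not at hz
        apply mul_le_mul_of_nonneg_right _ (hρ0 z)
        rw [norm_mul, sq]
        have h1 : ‖z q‖ ≤ R := (PiLp.norm_apply_le z q).trans hz
        have h2 : ‖z q'‖ ≤ R := (PiLp.norm_apply_le z q').trans hz
        exact mul_le_mul h1 h2 (norm_nonneg _) ((norm_nonneg _).trans h1)
  -- invariance of the density
  have hinv1 : ∀ (q : Q b d) (z : Z b d), ρ (rfl' q z) = ρ z := by
    intro q z
    apply hrad
    intro i
    apply zblk_eq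
    refine Finset.sum_congr rfl fun k _ => ?_
    rw [rfl'_apply]
    split_ifs <;> ring
  have hinv2 : ∀ (i : Fin b) (k l : Fin d × Fin 1) (z : Z b d),
      ρ (swp (i, k) (i, l) z) = ρ z := by
    intro i k l z
    apply hrad
    intro j
    apply zblk_eq
    by_cases hj : j = i
    · subst hj
      have : ∀ r : Fin d × Fin 1, Equiv.swap (j, k) (j, l) (j, r) = (j, Equiv.swap k l r) := by
        intro r
        by_cases h1 : r = k
        · subst h1; simp
        · by_cases h2 : r = l
          · subst h2; simp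
          · rw [Equiv.swap_apply_of_ne_of_ne h1 h2, Equiv.swap_apply_of_ne_of_ne]
            · simpa using h1
            · simpa using h2
      simp only [swp_apply, this]
      exact Equiv.sum_comp (Equiv.swap k l) (fun r => z (j, r) ^ 2)
    · refine Finset.sum_congr rfl fun r _ => ?_
      rw [swp_apply, Equiv.swap_apply_of_ne_of_ne]
      · simp [hj]
      · simp [hj]
  -- off-diagonal moments
  have hoff : ∀ q q' : Q b d, q ≠ q' → ∫ z : Z b d, z q * z q' * ρ z = 0 := by
    intro q q' hqq
    have h1 := int_comp (rfl' q) (fun z : Z b d => z q * z q' * ρ z)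
    simp only [rfl'_apply, hinv1, if_true, if_neg hqq.symm] at h1
    have h2 : ∫ z : Z b d, -z q * z q' * ρ z = -∫ z : Z b d, z q * z q' * ρ z := by
      rw [← integral_neg]
      congr 1
      funext z; ring
    rw [h2] at h1
    linarith
  -- diagonal moments
  have hdiag : ∀ (i : Fin b) (k l : Fin d × Fin 1),
      ∫ z : Z b d, z (i, k) * z (i, k) * ρ z = ∫ z : Z b d, z (i, l) * z (i, l) * ρ z := by
    intro i k l
    have h1 := int_comp (swp (i, k) (i, l)) (fun z : Z b d => z (i, l) * z (i, l) * ρ z)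
    simp only [swp_apply, hinv2, Equiv.swap_apply_right] at h1
    exact h1
  have hdT : ∀ q : Q b d, ∫ z : Z b d, z q * z q * ρ z ≤ T / d := by
    rintro ⟨i, k⟩
    have hd' : (0 : ℝ) < d := by exact_mod_cast hd
    rw [le_div_iff₀ hd']
    refine le_trans (le_of_eq ?_) (hT i)
    have h1 : ∫ z, ‖zblk i z‖ ^ 2 * ρ z = ∑ l, ∫ z : Z b d, z (i, l) * z (i, l) * ρ z := by
      rw [← integral_finsetSum _ (fun l _ => hint (i, l) (i, l))]
      congr 1
      funext z
      rw [zblk_sq, Finset.sum_mul]
      exact Finset.sum_congr rfl fun l _ => by ring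
    rw [h1, Finset.sum_congr rfl fun l _ => hdiag i l k]
    simp only [Finset.sum_const, Finset.card_univ, Fintype.card_prod, Fintype.card_fin,
      nsmul_eq_mul, mul_one]
    ring
  -- expansion
  have hexp : ∫ z, ⟪θ, z⟫_ℝ ^ 2 * ρ z =
      ∑ q : Q b d, ∑ q' : Q b d, θ q * θ q' * ∫ z : Z b d, z q * z q' * ρ z := by
    have h1 : ∀ z : Z b d, ⟪θ, z⟫_ℝ ^ 2 * ρ z =
        ∑ q : Q b d, ∑ q' : Q b d, θ q * θ q' * (z q * z q' * ρ z) := by
      intro z
      rw [PiLp.inner_apply, sq, Finset.sum_mul_sum, Finset.sum_mul]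
      refine Finset.sum_congr rfl fun q _ => ?_
      rw [Finset.sum_mul]
      refine Finset.sum_congr rfl fun q' _ => ?_
      simp only [RCLike.inner_apply, conj_trivial]
      ring
    simp only [h1]
    rw [integral_finsetSum _ (fun q _ => integrable_finsetSum _ fun q' _ =>
      (hint q q').const_mul _)]
    refine Finset.sum_congr rfl fun q _ => ?_
    rw [integral_finsetSum _ (fun q' _ => (hint q q').const_mul _)]
    refine Finset.sum_congr rfl fun q' _ => ?_
    rw [integral_const_mul]
  rw [hexp]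
  have h2 : ∀ q : Q b d, ∑ q' : Q b d, θ q * θ q' * ∫ z : Z b d, z q * z q' * ρ z =
      θ q * θ q * ∫ z : Z b d, z q * z q * ρ z := by
    intro q
    rw [Finset.sum_eq_single q]
    · intro q' _ hq'
      rw [hoff q q' hq'.symm, mul_zero]
    · intro h; exact absurd (Finset.mem_univ q) h
  rw [Finset.sum_congr rfl fun q _ => h2 q, EuclideanSpace.norm_sq_eq, Finset.mul_sum]
  refine Finset.sum_le_sum fun q _ => ?_
  rw [Real.norm_eq_abs, sq_abs, mul_comm, sq]
  exact mul_le_mul_of_nonneg_right (hdT q) (mul_self_nonneg _)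

end Pool.Agent.W216.US.CovZ
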